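import Pool.Agent.Helper33VL.Calc

/-!
Project VL, part VL-1: the smooth step and the smooth distance (helper36).
-/

set_option autoImplicit false

open MeasureTheory Set Metric Filter Topology
open scoped ContDiff
open H459R3.NS Pool.Agent.W268.NS Pool.Agent.Q67.VD

namespace Pool.Agent.Helper36VL

open Pool.Agent.Q85.CC Pool.Agent.Q85.CL Pool.Agent.Q85.VL Pool.Agent.Helper33VL

/-! ### the step -/

lemma stp_lo {s : ℝ} (h : s ≤ 0) : stp s = 0 := by
  unfold stp
  have : max 0 (min 1 s) = 0 := max_eq_left ((min_le_right _ _).trans h)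
  rw [this]
  norm_num

lemma stp_hi {s : ℝ} (h : 1 ≤ s) : stp s = 1 := by
  unfold stp
  have : max 0 (min 1 s) = 1 := by rw [min_eq_left h]; norm_num
  rw [this]
  norm_num

lemma stp_mid {s : ℝ} (h0 : 0 ≤ s) (h1 : s ≤ 1) : stp s = 3 * s ^ 2 - 2 * s ^ 3 := by
  unfold stp
  rw [min_eq_right h1, max_eq_right h0]

lemma stp'_lo {s : ℝ} (h : s ≤ 0) : stp' s = 0 := by
  unfold stp'
  have : max 0 (min 1 s) = 0 := max_eq_left ((min_le_right _ _).trans h)
  rw [this]
  norm_num

lemma stp'_hi {s : ℝ} (h : 1 ≤ s) : stp' s = 0 := by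
  unfold stp'
  have : max 0 (min 1 s) = 1 := by rw [min_eq_left h]; norm_num
  rw [this]
  norm_num

lemma stp'_mid {s : ℝ} (h0 : 0 ≤ s) (h1 : s ≤ 1) : stp' s = 6 * s * (1 - s) := by
  unfold stp'
  rw [min_eq_right h1, max_eq_right h0]

lemma stp_der (s : ℝ) : HasDerivAt stp (stp' s) s := by
  have hp : ∀ t : ℝ, HasDerivAt (fun s : ℝ => 3 * s ^ 2 - 2 * s ^ 3) (6 * t * (1 - t)) t := by
    intro t
    have h1 := ((hasDerivAt_pow 2 t).const_mul 3).sub ((hasDerivAt_pow 3 t).const_mul 2)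
    refine h1.congr_deriv ?_
    norm_num
    ring
  rcases lt_trichotomy s 0 with h | h | h
  · rw [stp'_lo h.le]
    refine (hasDerivAt_const s (0 : ℝ)).congr_of_eventuallyEq ?_
    filter_upwards [Iio_mem_nhds h] with t ht using stp_lo (le_of_lt ht)
  · subst h
    rw [stp'_lo le_rfl]
    have hl : HasDerivWithinAt stp 0 (Iic 0) 0 :=
      (hasDerivWithinAt_const (0 : ℝ) (Iic 0) (0 : ℝ)).congr (fun t ht => stp_lo ht) (stp_lo le_rfl)
    have hr : HasDerivWithinAt stp 0 (Icc 0 1) 0 := by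
      have h1 := (hp 0).hasDerivWithinAt (s := Icc 0 1)
      rw [mul_zero, zero_mul] at h1
      exact h1.congr (fun t ht => stp_mid ht.1 ht.2) (stp_mid le_rfl zero_le_one)
    have h2 := hl.union hr
    refine h2.hasDerivAt ?_
    rw [Iic_union_Icc_eq_Iic zero_le_one]
    exact Iic_mem_nhds one_pos
  · rcases lt_trichotomy s 1 with h' | h' | h'
    · rw [stp'_mid h.le h'.le]
      refine (hp s).congr_of_eventuallyEq ?_
      filter_upwards [Ioo_mem_nhds h h'] with t ht using stp_mid ht.1.le ht.2.le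
    · subst h'
      rw [stp'_hi le_rfl]
      have hl : HasDerivWithinAt stp 0 (Ici 1) 1 :=
        (hasDerivWithinAt_const (1 : ℝ) (Ici 1) (1 : ℝ)).congr (fun t ht => stp_hi ht)
          (stp_hi le_rfl)
      have hr : HasDerivWithinAt stp 0 (Icc 0 1) 1 := by
        have h1 := (hp 1).hasDerivWithinAt (s := Icc 0 1)
        rw [sub_self, mul_zero] at h1
        exact h1.congr (fun t ht => stp_mid ht.1 ht.2) (stp_mid zero_le_one le_rfl)
      have h2 := hr.union hl
      refine h2.hasDerivAt ?_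
      rw [Icc_union_Ici_eq_Ici zero_le_one]
      exact Ici_mem_nhds one_pos
    · rw [stp'_hi h'.le]
      refine (hasDerivAt_const s (1 : ℝ)).congr_of_eventuallyEq ?_
      filter_upwards [Ioi_mem_nhds h'] with t ht using stp_hi (le_of_lt ht)

lemma stp'_cont : Continuous stp' := by
  unfold stp'
  fun_prop

lemma stp'_nn (s : ℝ) : 0 ≤ stp' s := by
  unfold stp'
  have h1 : 0 ≤ max 0 (min 1 s) := le_max_left _ _
  have h2 : max 0 (min 1 s) ≤ 1 := max_le zero_le_one (min_le_left _ _)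
  have : 0 ≤ 1 - max 0 (min 1 s) := by linarith
  positivity

lemma stp'_le (s : ℝ) : stp' s ≤ 2 := by
  unfold stp'
  nlinarith [sq_nonneg (2 * max 0 (min 1 s) - 1)]

lemma stp_mono : Monotone stp :=
  monotone_of_deriv_nonneg (fun s => (stp_der s).differentiableAt) fun s => by
    rw [(stp_der s).deriv]
    exact stp'_nn s

lemma stp_c1 : ContDiff ℝ 1 stp := Pool.Agent.Q151.CC.contDiff_of_deriv stp_der stp'_cont

lemma stp_01 (s : ℝ) : 0 ≤ stp s ∧ stp s ≤ 1 := by
  constructor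
  · rcases le_total s 0 with h | h
    · rw [stp_lo h]
    · have := stp_mono h
      rwa [stp_lo le_rfl] at this
  · rcases le_total s 1 with h | h
    · have := stp_mono h
      rwa [stp_hi le_rfl] at this
    · rw [stp_hi h]

/-! ### the distance -/

lemma dsq (x y : V) : (y - x) ⬝ᵥ (y - x) = len (y - x) ^ 2 := (len_sq3 _).symm

lemma ds_sq (x : V) (ρ : ℝ) (y : V) : ds x ρ y ^ 2 = len (y - x) ^ 2 + ρ ^ 2 := by
  unfold ds
  rw [Real.sq_sqrt, dsq]
  rw [dsq]
  positivity

lemma ds_nn (x : V) (ρ : ℝ) (y : V) : 0 ≤ ds x ρ y := Real.sqrt_nonneg _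

lemma len_le_ds (x : V) (ρ : ℝ) (y : V) : len (y - x) ≤ ds x ρ y := by
  refine abs_le_of_sq_le_sq' ?_ (ds_nn x ρ y) |>.2
  rw [ds_sq]
  nlinarith [sq_nonneg ρ]

lemma ds_smooth {ρ : ℝ} (hρ : 0 < ρ) (x : V) : ContDiff ℝ ∞ (ds x ρ) := by
  unfold ds
  refine ContDiff.sqrt ?_ fun y => ?_
  · simp only [dotProduct]
    refine (ContDiff.sum fun i _ => ?_).add contDiff_const
    have h : ContDiff ℝ ∞ fun y : V => (y - x) i := (contDiff_apply ℝ ℝ i).sub contDiff_const
    exact h.mul h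
  · rw [dsq]
    positivity

lemma ds_tri (x : V) (ρ : ℝ) (y z : V) : ds x ρ y ≤ ds x ρ z + len (y - z) := by
  refine abs_le_of_sq_le_sq' ?_ (add_nonneg (ds_nn x ρ z) (len_nn _)) |>.2
  have h1 := len_tri (y - z) (z - x)
  rw [sub_add_sub_cancel] at h1
  have h2 : len (y - x) ^ 2 ≤ (len (y - z) + len (z - x)) ^ 2 :=
    pow_le_pow_left₀ (len_nn _) h1 2
  have h3 := len_le_ds x ρ z
  have h4 := mul_le_mul_of_nonneg_left h3 (len_nn (y - z))
  have h5 := ds_sq x ρ z
  rw [ds_sq]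
  nlinarith

lemma ds_lip (x : V) (ρ : ℝ) (y z : V) : |ds x ρ y - ds x ρ z| ≤ len (y - z) := by
  rw [abs_le]
  have h1 := ds_tri x ρ y z
  have h2 := ds_tri x ρ z y
  rw [len_comm z y] at h2
  constructor <;> linarith

theorem stmBas : StmBas := by
  refine ⟨stp_der, stp_c1, stp'_cont, stp_mono,
    fun s => ⟨(stp_01 s).1, (stp_01 s).2, stp'_nn s, stp'_le s⟩, fun s h => stp_lo h,
    fun s h => stp_hi h, fun s h => ?_, fun s h => ?_, fun s h => ?_, fun x ρ hρ => ?_⟩
  · constructor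
    · by_contra hc
      exact h (stp'_lo (not_lt.1 hc))
    · by_contra hc
      exact h (stp'_hi (not_lt.1 hc))
  · by_contra hc
    exact h (stp_lo (not_lt.1 hc))
  · by_contra hc
    exact h (stp_hi (not_lt.1 hc))
  · refine ⟨ds_smooth hρ x, len_le_ds x ρ, fun y => ?_, fun y => ?_, fun y => ?_, fun y hy => ?_,
      ds_lip x ρ, fun y n => ?_⟩
    · refine abs_le_of_sq_le_sq' ?_ (ds_nn x ρ y) |>.2
      rw [ds_sq]
      nlinarith [sq_nonneg (len (y - x))]
    · refine abs_le_of_sq_le_sq' ?_ (add_nonneg (len_nn _) hρ.le) |>.2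
      rw [ds_sq]
      nlinarith [len_nn (y - x)]
    · exact (norm_le_len _).trans (len_le_ds x ρ y)
    · refine abs_le_of_sq_le_sq' ?_ (by positivity) |>.2
      rw [ds_sq]
      have h1 := len_le_norm (y - x)
      have h2 : len (y - x) ^ 2 ≤ (√3 * ρ) ^ 2 :=
        pow_le_pow_left₀ (len_nn _) (h1.trans (mul_le_mul_of_nonneg_left hy (by positivity))) 2
      rw [mul_pow, Real.sq_sqrt (by norm_num)] at h2
      nlinarith
    · exact fderiv_lip ((ds_smooth hρ x).differentiable (by simp) y) (ds_lip x ρ) n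

end Pool.Agent.Helper36VL
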